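import Pool.Agent.helper54.BQ.B8a2
import Pool.Agent.helper76.BQ.B3

/-!
# Project bq, module B8a: `th2` is jointly continuous in a parameter and the point
-/

open Matrix Complex

namespace Pool.Agent.helper76.BQ

variable {F : Type} [Field F] [NumberField F]

/-- B8a: `th2` is jointly continuous in a parameter and the point: on a compact set of `P × Ball` the real part of the
exponent is bounded below by `c Σ x_i²` uniformly (compactness), and `dss` is linear in `x` and bounded -/
theorem th2_continuous {κ d : F} {v0 : F →+* ℝ} (hd : Data κ d v0) {δ : Fin 2 → F}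
    {P : Type} [TopologicalSpace P] {S M : P → (F →+* ℝ) → Matrix (Fin 2) (Fin 2) ℝ}
    (hM : ∀ p, MajAll δ v0 (S p) (M p)) (hc : ∀ v l l', Continuous (fun p => M p v l l'))
    (hP : ∀ p : P, ∃ U ∈ nhds p, IsCompact U)
    {φ : (Fin 2 → Fin 3 → F) → ℂ} (hφ : IsSchw φ) :
    ContinuousOn (fun q : P × (Fin 2 → ℂ) => th2 κ d v0 (M q.1) φ q.2) (Set.univ ×ˢ Ball (v0 d)) :=
  th2_continuous_of3 (fun hd _ δ hδ => lb_exists hd δ hδ) hd hM hc hφ

end Pool.Agent.helper76.BQ
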