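import Pool.Agent.helper76.BQ.TDefs
import Pool.Agent.helper76.BQ.BDefs
import Pool.Agent.helper76.BQ.BGood

/-!
# Project bq, module B8a: joint continuity of the second order theta series (conditional form)
-/

open Matrix Complex

namespace Pool.Agent.helper76.BQ

/-- statement of `siegel_coercive` (T1a) -/
def B8a_T1a : Prop :=
  ∀ {g : ℕ} {Z : Matrix (Fin g) (Fin g) ℂ}, IsSiegel Z →
    ∃ c : ℝ, 0 < c ∧ ∀ x : Fin g → ℝ, c * ∑ i, x i ^ 2 ≤ ∑ i, ∑ j, (Z i j).re * x i * x j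

/-- statement of `siegel_summable` (T1b) -/
def B8a_T1b : Prop :=
  ∀ {g N : ℕ}, 0 < N → ∀ {Z : Matrix (Fin g) (Fin g) ℂ}, IsSiegel Z →
    ∀ (φ : Sch g N) (ξ : Fin g → ℂ) (k : ℕ),
    Summable (fun n : Fin g → ℤ => ‖φ (red N n)‖ * (1 + ∑ i, |(n i : ℝ)|) ^ k *
      ‖cexp (-(Real.pi : ℂ) * qf Z (pt N n) + 2 * (Real.pi : ℂ) * I * ∑ i, ξ i * pt N n i)‖)

theorem B8a_re {g : ℕ} (Z : Matrix (Fin g) (Fin g) ℂ) (N : ℕ) (n : Fin g → ℤ) :
    (qf Z (pt N n)).re = ∑ i, ∑ j, (Z i j).re * ((n i : ℝ) / N) * ((n j : ℝ) / N) := by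
  unfold qf pt
  rw [Complex.re_sum]
  refine Finset.sum_congr rfl fun i _ => ?_
  rw [Complex.re_sum]
  refine Finset.sum_congr rfl fun j _ => ?_
  have h1 : ((n i : ℂ) / (N : ℂ)) = (((n i : ℝ) / (N : ℝ) : ℝ) : ℂ) := by push_cast; rfl
  have h2 : ((n j : ℂ) / (N : ℂ)) = (((n j : ℝ) / (N : ℝ) : ℝ) : ℂ) := by push_cast; rfl
  rw [h1, h2, Complex.re_mul_ofReal, Complex.re_mul_ofReal]

theorem B8a_norm {g : ℕ} (Z : Matrix (Fin g) (Fin g) ℂ) (N : ℕ) (n : Fin g → ℤ) :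
    ‖cexp (-(Real.pi : ℂ) * qf Z (pt N n))‖ =
      Real.exp (-(Real.pi * ∑ i, ∑ j, (Z i j).re * ((n i : ℝ) / N) * ((n j : ℝ) / N))) := by
  rw [Complex.norm_exp, ← B8a_re]
  congr 1
  rw [← Complex.ofReal_neg, Complex.re_ofReal_mul]
  ring

/-- The diagonal comparison matrix. -/
theorem B8a_diag {g : ℕ} {c : ℝ} (hc : 0 < c) :
    IsSiegel (Matrix.diagonal fun _ : Fin g => ((c : ℝ) : ℂ)) := by
  refine ⟨Matrix.diagonal_transpose _, fun x hx => ?_⟩
  have h1 : ∀ i : Fin g, ∑ j, ((Matrix.diagonal fun _ : Fin g => ((c : ℝ) : ℂ)) i j).re * x i * x j =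
      c * x i ^ 2 := by
    intro i
    rw [Finset.sum_eq_single i]
    · rw [Matrix.diagonal_apply_eq, Complex.ofReal_re]; ring
    · intro j _ hj
      rw [Matrix.diagonal_apply_ne _ (Ne.symm hj)]; simp
    · intro h; exact absurd (Finset.mem_univ i) h
  simp only [h1]
  rw [← Finset.mul_sum]
  refine mul_pos hc ?_
  obtain ⟨i, hi⟩ := Function.ne_iff.1 hx
  exact Finset.sum_pos' (fun j _ => sq_nonneg _) ⟨i, Finset.mem_univ i, by
    have : x i ≠ 0 := hi
    positivity⟩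

theorem B8a_diag_norm {g : ℕ} (c : ℝ) (N : ℕ) (n : Fin g → ℤ) :
    ‖cexp (-(Real.pi : ℂ) * qf (Matrix.diagonal fun _ : Fin g => ((c : ℝ) : ℂ)) (pt N n) +
      2 * (Real.pi : ℂ) * I * ∑ i, (0 : Fin g → ℂ) i * pt N n i)‖ =
      Real.exp (-(Real.pi * (c * ∑ i, ((n i : ℝ) / N) ^ 2))) := by
  have h0 : ∑ i, (0 : Fin g → ℂ) i * pt N n i = 0 :=
    Finset.sum_eq_zero fun i _ => by simp
  rw [h0, mul_zero, add_zero, B8a_norm]
  congr 3
  rw [Finset.mul_sum]
  refine Finset.sum_congr rfl fun i _ => ?_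
  rw [Finset.sum_eq_single i]
  · rw [Matrix.diagonal_apply_eq, Complex.ofReal_re]; ring
  · intro j _ hj
    rw [Matrix.diagonal_apply_ne _ (Ne.symm hj)]; simp
  · intro h; exact absurd (Finset.mem_univ i) h

/-- Lower bound of the real form near a point of the Siegel space. -/
theorem B8a_lower {g : ℕ} {Z Z0 : Matrix (Fin g) (Fin g) ℂ} {c : ℝ} (hc : 0 < c)
    (h0 : ∀ x : Fin g → ℝ, c * ∑ i, x i ^ 2 ≤ ∑ i, ∑ j, (Z0 i j).re * x i * x j)
    (hZ : ∀ i j, |(Z i j).re - (Z0 i j).re| < c / (2 * (g + 1))) (x : Fin g → ℝ) :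
    (c / 2) * ∑ i, x i ^ 2 ≤ ∑ i, ∑ j, (Z i j).re * x i * x j := by
  have hg : (0 : ℝ) < 2 * ((g : ℝ) + 1) := by positivity
  have h1 : ∑ i, ∑ j, (Z0 i j).re * x i * x j - ∑ i, ∑ j, (Z i j).re * x i * x j ≤
      ∑ i : Fin g, ∑ j : Fin g, c / (2 * (g + 1)) * ((x i ^ 2 + x j ^ 2) / 2) := by
    rw [← Finset.sum_sub_distrib]
    refine Finset.sum_le_sum fun i _ => ?_
    rw [← Finset.sum_sub_distrib]
    refine Finset.sum_le_sum fun j _ => ?_
    have h2 : (Z0 i j).re * x i * x j - (Z i j).re * x i * x j =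
        -((Z i j).re - (Z0 i j).re) * (x i * x j) := by ring
    rw [h2]
    calc -((Z i j).re - (Z0 i j).re) * (x i * x j)
        ≤ |-((Z i j).re - (Z0 i j).re) * (x i * x j)| := le_abs_self _
      _ = |(Z i j).re - (Z0 i j).re| * |x i * x j| := by rw [abs_mul, abs_neg]
      _ ≤ c / (2 * (g + 1)) * ((x i ^ 2 + x j ^ 2) / 2) := by
          refine mul_le_mul (hZ i j).le ?_ (abs_nonneg _) (by positivity)
          rw [abs_le]
          constructor <;> nlinarith [sq_nonneg (x i + x j), sq_nonneg (x i - x j)]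
  have h3 : ∑ i : Fin g, ∑ j : Fin g, c / (2 * (g + 1)) * ((x i ^ 2 + x j ^ 2) / 2) =
      c / (2 * (g + 1)) * (g * ∑ i, x i ^ 2) := by
    simp only [← Finset.mul_sum]
    congr 1
    simp only [add_div, Finset.sum_add_distrib, Finset.sum_const, Finset.card_univ,
      Fintype.card_fin, nsmul_eq_mul]
    rw [← Finset.mul_sum]
    rw [← Finset.sum_div]
    ring
  have h4 : c / (2 * (g + 1)) * (g * ∑ i, x i ^ 2) ≤ c / 2 * ∑ i, x i ^ 2 := by
    have hs : 0 ≤ ∑ i, x i ^ 2 := Finset.sum_nonneg fun i _ => sq_nonneg _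
    have h5 : c / (2 * ((g : ℝ) + 1)) * g ≤ c / 2 := by
      rw [div_mul_eq_mul_div, div_le_div_iff₀ hg two_pos]
      nlinarith [hc]
    calc c / (2 * ((g : ℝ) + 1)) * (g * ∑ i, x i ^ 2) = (c / (2 * ((g : ℝ) + 1)) * g) * ∑ i, x i ^ 2 := by ring
      _ ≤ c / 2 * ∑ i, x i ^ 2 := mul_le_mul_of_nonneg_right h5 hs
  have h6 := h0 x
  rw [h3] at h1
  nlinarith [h1, h4, h6]

/-- Continuity of the second order theta series on the Siegel space. -/
theorem B8a_Th2_of (T1a : B8a_T1a) (T1b : B8a_T1b) {g N : ℕ} (hN : 0 < N) (ψ : Sch g N) (i j : Fin g) :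
    ContinuousOn (fun Z : Matrix (Fin g) (Fin g) ℂ => Th2 N ψ Z i j) {Z | IsSiegel Z} := by
  intro Z0 hZ0
  refine ContinuousAt.continuousWithinAt ?_
  obtain ⟨c, hc, h0⟩ := T1a hZ0
  set ε : ℝ := c / (2 * (g + 1)) with hε
  have hεpos : 0 < ε := by positivity
  set U : Set (Matrix (Fin g) (Fin g) ℂ) := {Z | ∀ a b, |(Z a b).re - (Z0 a b).re| < ε} with hU
  have hUn : U ∈ nhds Z0 := by
    have : ∀ᶠ Z : Matrix (Fin g) (Fin g) ℂ in nhds Z0, ∀ a b, |(Z a b).re - (Z0 a b).re| < ε := by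
      rw [Filter.eventually_all]
      intro a
      rw [Filter.eventually_all]
      intro b
      have hcont : Continuous fun Z : Matrix (Fin g) (Fin g) ℂ => |(Z a b).re - (Z0 a b).re| := by
        have : Continuous fun Z : Matrix (Fin g) (Fin g) ℂ => Z a b :=
          Continuous.matrix_elem continuous_id a b
        exact ((Complex.continuous_re.comp this).sub continuous_const).abs
      have h1 := (hcont.tendsto Z0).eventually (Iio_mem_nhds (show |(Z0 a b).re - (Z0 a b).re| < ε by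
        simpa using hεpos))
      exact h1
    exact this
  refine ContinuousOn.continuousAt ?_ hUn
  have hsum := T1b hN (B8a_diag (g := g) (half_pos hc)) ψ 0 2
  refine continuousOn_tsum (u := fun n : Fin g → ℤ => ‖ψ (red N n)‖ * (1 + ∑ i, |(n i : ℝ)|) ^ 2 *
      ‖cexp (-(Real.pi : ℂ) * qf (Matrix.diagonal fun _ : Fin g => (((c / 2 : ℝ)) : ℂ)) (pt N n) +
        2 * (Real.pi : ℂ) * I * ∑ i, (0 : Fin g → ℂ) i * pt N n i)‖) ?_ hsum ?_
  · intro n
    refine Continuous.continuousOn ?_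
    have hq : Continuous fun Z : Matrix (Fin g) (Fin g) ℂ => qf Z (pt N n) := by
      unfold qf
      refine continuous_finsetSum _ fun a _ => continuous_finsetSum _ fun b _ => ?_
      exact ((Continuous.matrix_elem continuous_id a b).mul continuous_const).mul continuous_const
    exact continuous_const.mul (Complex.continuous_exp.comp (continuous_const.mul hq))
  · intro n Z hZ
    rw [B8a_diag_norm, norm_mul, norm_mul, B8a_norm]
    have hlow := B8a_lower hc h0 hZ (fun i => (n i : ℝ) / N)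
    have h1 : Real.exp (-(Real.pi * ∑ i, ∑ j, (Z i j).re * ((n i : ℝ) / N) * ((n j : ℝ) / N))) ≤
        Real.exp (-(Real.pi * (c / 2 * ∑ i, ((n i : ℝ) / N) ^ 2))) := by
      refine Real.exp_le_exp.2 (neg_le_neg ?_)
      exact mul_le_mul_of_nonneg_left hlow Real.pi_pos.le
    have hpt : ∀ a : Fin g, ‖pt N n a‖ ≤ 1 + ∑ i, |(n i : ℝ)| := by
      intro a
      have h2 : ‖pt N n a‖ ≤ |(n a : ℝ)| := by
        unfold pt
        rw [norm_div, Complex.norm_intCast, Complex.norm_natCast]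
        refine div_le_self (abs_nonneg _) ?_
        exact_mod_cast hN
      have h3 : |(n a : ℝ)| ≤ ∑ i, |(n i : ℝ)| :=
        Finset.single_le_sum (f := fun i => |(n i : ℝ)|) (fun _ _ => abs_nonneg _) (Finset.mem_univ a)
      linarith
    have hS : 0 ≤ 1 + ∑ i, |(n i : ℝ)| :=
      add_nonneg zero_le_one (Finset.sum_nonneg fun _ _ => abs_nonneg _)
    have h4 : ‖pt N n i * pt N n j‖ ≤ (1 + ∑ i, |(n i : ℝ)|) ^ 2 := by
      rw [norm_mul, pow_two]
      exact mul_le_mul (hpt i) (hpt j) (norm_nonneg _) hS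
    exact mul_le_mul (mul_le_mul_of_nonneg_left h4 (norm_nonneg _)) h1 (Real.exp_pos _).le
      (mul_nonneg (norm_nonneg _) (pow_nonneg hS 2))

end Pool.Agent.helper76.BQ
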