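import Pool.Agent.helper76.BQ.TGood

/-!
# Project bq, modules T3e and T3f: the partial Fourier transform
-/

open Matrix Complex

namespace Pool.Agent.helper76.BQ

theorem T3e_exp {N : ℕ} [NeZero (N ^ 2)] (z : ℤ) :
    cexp (2 * (Real.pi : ℂ) * I * (z : ℂ) / (N : ℂ) ^ 2) =
      ZMod.stdAddChar (N := N ^ 2) (z : ZMod (N ^ 2)) := by
  rw [ZMod.stdAddChar_coe]
  push_cast
  rfl

theorem T3e_val {N : ℕ} [NeZero (N ^ 2)] (m : ZMod (N ^ 2)) : (((m.val : ℕ) : ℤ) : ZMod (N ^ 2)) = m := by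
  simp

/-- The partial Fourier transform with the standard additive character. -/
theorem T3e_pft {g N : ℕ} [NeZero (N ^ 2)] (k : Fin g) (φ : Sch g N) (n : Fin g → ZMod (N ^ 2)) :
    pft N k φ n = (N : ℂ)⁻¹ * ∑ x : ZMod (N ^ 2), φ (Function.update n k x) *
      ZMod.stdAddChar (n k * x) := by
  show (N : ℂ)⁻¹ * ∑ c ∈ (Finset.range (N ^ 2)), φ (Function.update n k (c : ZMod (N ^ 2))) *
      cexp (2 * (Real.pi : ℂ) * I * (((n k).val : ℂ) * (c : ℂ)) / (N : ℂ) ^ 2) = _
  congr 1
  refine Finset.sum_bij' (fun c _ => (c : ZMod (N ^ 2))) (fun x _ => x.val) ?_ ?_ ?_ ?_ ?_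
  · intro c hc
    exact Finset.mem_univ _
  · intro x hx
    exact Finset.mem_range.2 (ZMod.val_lt x)
  · intro c hc
    exact ZMod.val_cast_of_lt (Finset.mem_range.1 hc)
  · intro x hx
    exact ZMod.natCast_zmod_val x
  · intro c hc
    congr 1
    have h1 : cexp (2 * (Real.pi : ℂ) * I * (((n k).val : ℂ) * (c : ℂ)) / (N : ℂ) ^ 2) =
        cexp (2 * (Real.pi : ℂ) * I * (((((n k).val * c : ℕ) : ℤ)) : ℂ) / (N : ℂ) ^ 2) := by
      push_cast
      rfl
    rw [h1, T3e_exp]
    congr 1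
    push_cast
    rw [ZMod.natCast_zmod_val]

/-- The square of the partial Fourier transform is the reflection in the coordinate `k`. -/
theorem T3e_sq {g N : ℕ} (hN : 0 < N) (k : Fin g) (φ : Sch g N) (n : Fin g → ZMod (N ^ 2)) :
    pft N k (pft N k φ) n = φ (Function.update n k (-(n k))) := by
  have : NeZero (N ^ 2) := ⟨by positivity⟩
  have hN' : (N : ℂ) ≠ 0 := by exact_mod_cast hN.ne'
  rw [T3e_pft]
  simp only [T3e_pft, Function.update_idem, Function.update_self]
  have h1 : ∀ x : ZMod (N ^ 2), ((N : ℂ)⁻¹ * ∑ y : ZMod (N ^ 2), φ (Function.update n k y) *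
      ZMod.stdAddChar (x * y)) * ZMod.stdAddChar (n k * x) =
      (N : ℂ)⁻¹ * ∑ y : ZMod (N ^ 2), φ (Function.update n k y) *
        ZMod.stdAddChar (x * (y - (-(n k)))) := by
    intro x
    rw [mul_assoc, Finset.sum_mul]
    congr 1
    refine Finset.sum_congr rfl fun y _ => ?_
    rw [mul_assoc, ← AddChar.map_add_eq_mul]
    congr 2
    ring
  simp only [h1]
  rw [← Finset.mul_sum, Finset.sum_comm]
  simp only [← Finset.mul_sum]
  have h2 : ∀ y : ZMod (N ^ 2), ∑ x : ZMod (N ^ 2), (ZMod.stdAddChar (x * (y - (-(n k)))) : ℂ) =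
      if y = -(n k) then ((N : ℂ) ^ 2) else 0 := by
    intro y
    rw [AddChar.sum_mulShift _ (ZMod.isPrimitive_stdAddChar (N ^ 2))]
    simp only [sub_eq_zero, ZMod.card]
    push_cast
    rfl
  simp only [h2]
  rw [Finset.sum_eq_single (-(n k))]
  · rw [if_pos rfl]
    field_simp
  · intro y _ hy
    rw [if_neg hy, mul_zero]
  · intro h
    exact absurd (Finset.mem_univ _) h

/-- T3e -/
theorem det_pft {g : ℕ} {N : ℕ} (hN : 0 < N) (k : Fin g) :
    LinearMap.det (pft (g := g) N k) ^ (4 * N ^ 2) = 1 := by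
  have h4 : (pft (g := g) N k) * (pft (g := g) N k) * ((pft (g := g) N k) * (pft (g := g) N k)) = 1 := by
    refine LinearMap.ext fun φ => ?_
    funext n
    show pft N k (pft N k (pft N k (pft N k φ))) n = φ n
    rw [T3e_sq hN, T3e_sq hN]
    congr 1
    simp
  have hdet : LinearMap.det (pft (g := g) N k) ^ 4 = 1 := by
    have h5 := congrArg LinearMap.det h4
    rw [map_mul, map_mul, map_one] at h5
    calc LinearMap.det (pft (g := g) N k) ^ 4
        = LinearMap.det (pft (g := g) N k) * LinearMap.det (pft (g := g) N k) *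
          (LinearMap.det (pft (g := g) N k) * LinearMap.det (pft (g := g) N k)) := by ring
      _ = 1 := h5
  rw [pow_mul, hdet, one_pow]

end Pool.Agent.helper76.BQ
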