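import Pool.Agent.helper54.BQ.T3e

/-!
# Project bq, module T3f: Heisenberg relation of the partial Fourier transform
-/

open Matrix Complex

namespace Pool.Agent.helper76.BQ

/-- The matrix of the partial inversion. -/
abbrev T3f_J {g : ℕ} (k : Fin g) : Matrix (Fin g ⊕ Fin g) (Fin g ⊕ Fin g) ℤ :=
  fromBlocks (1 - single k k 1) (-(single k k 1)) (single k k 1) (1 - single k k 1)

theorem T3f_single {g : ℕ} (k : Fin g) (v : Fin g → ℤ) (i : Fin g) :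
    (single k k (1 : ℤ) *ᵥ v) i = if i = k then v k else 0 := by
  simp only [Matrix.mulVec, dotProduct, Matrix.single_apply]
  by_cases h : i = k
  · subst h
    simp
  · rw [if_neg h]
    refine Finset.sum_eq_zero fun j _ => ?_
    rw [if_neg (fun hh => h hh.1.symm), zero_mul]

theorem T3f_inl {g : ℕ} (k : Fin g) (h : (Fin g ⊕ Fin g) → ℤ) (i : Fin g) :
    (T3f_J k *ᵥ h) (Sum.inl i) = if i = k then -(h (Sum.inr k)) else h (Sum.inl i) := by
  rw [Matrix.fromBlocks_mulVec, Sum.elim_inl, Pi.add_apply, Matrix.sub_mulVec, Matrix.one_mulVec,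
    Matrix.neg_mulVec, Pi.sub_apply, Pi.neg_apply, T3f_single, T3f_single]
  by_cases hi : i = k
  · subst hi
    simp
  · simp [hi]

theorem T3f_inr {g : ℕ} (k : Fin g) (h : (Fin g ⊕ Fin g) → ℤ) (i : Fin g) :
    (T3f_J k *ᵥ h) (Sum.inr i) = if i = k then h (Sum.inl k) else h (Sum.inr i) := by
  rw [Matrix.fromBlocks_mulVec, Sum.elim_inr, Pi.add_apply, Matrix.sub_mulVec, Matrix.one_mulVec,
    Pi.sub_apply, T3f_single, T3f_single]
  by_cases hi : i = k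
  · subst hi
    simp
  · simp [hi]

/-- The scalar part of the Heisenberg operator. -/
noncomputable def T3f_A {g : ℕ} (N : ℕ) (h : (Fin g ⊕ Fin g) → ℤ) : ℂ :=
  cexp (-((Real.pi : ℂ) * I * ((∑ i, h (Sum.inl i) * h (Sum.inr i) : ℤ) : ℂ)) / (N : ℂ) ^ 2)

theorem T3f_W {g N : ℕ} [NeZero (N ^ 2)] (h : (Fin g ⊕ Fin g) → ℤ) (φ : Sch g N)
    (n : Fin g → ZMod (N ^ 2)) :
    Wop N h φ n = ZMod.stdAddChar (-(∑ i, (h (Sum.inr i) : ZMod (N ^ 2)) * n i)) * T3f_A N h *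
      φ (fun i => n i + ((h (Sum.inl i) : ℤ) : ZMod (N ^ 2))) := by
  show cexp (2 * (Real.pi : ℂ) * I *
      (-(∑ i, (h (Sum.inr i) : ℂ) * ((n i).val : ℂ)) / (N : ℂ) ^ 2
        - (∑ i, (h (Sum.inl i) : ℂ) * (h (Sum.inr i) : ℂ)) / (2 * (N : ℂ) ^ 2))) *
      φ (fun i => n i + ((h (Sum.inl i) : ℤ) : ZMod (N ^ 2))) = _
  congr 1
  have h1 : (ZMod.stdAddChar (-(∑ i, (h (Sum.inr i) : ZMod (N ^ 2)) * n i)) : ℂ) =
      cexp (2 * (Real.pi : ℂ) * I * ((-(∑ i, h (Sum.inr i) * ((n i).val : ℤ)) : ℤ) : ℂ) /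
        (N : ℂ) ^ 2) := by
    rw [T3e_exp]
    congr 1
    push_cast
    simp
  rw [h1, T3f_A, ← Complex.exp_add]
  congr 1
  push_cast
  ring

theorem T3f_AJ {g N : ℕ} [NeZero (N ^ 2)] (k : Fin g) (h : (Fin g ⊕ Fin g) → ℤ) :
    T3f_A N h = T3f_A N (T3f_J k *ᵥ h) *
      ZMod.stdAddChar (-(((h (Sum.inl k) : ZMod (N ^ 2))) * (h (Sum.inr k) : ZMod (N ^ 2)))) := by
  have h1 : (ZMod.stdAddChar (-(((h (Sum.inl k) : ZMod (N ^ 2))) * (h (Sum.inr k) : ZMod (N ^ 2)))) : ℂ) =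
      cexp (2 * (Real.pi : ℂ) * I * ((-(h (Sum.inl k) * h (Sum.inr k)) : ℤ) : ℂ) / (N : ℂ) ^ 2) := by
    rw [T3e_exp]
    congr 1
    push_cast
    rfl
  rw [h1, T3f_A, T3f_A, ← Complex.exp_add]
  congr 1
  have h2 : (∑ i, h (Sum.inl i) * h (Sum.inr i)) =
      h (Sum.inl k) * h (Sum.inr k) + ∑ i ∈ Finset.univ.erase k, h (Sum.inl i) * h (Sum.inr i) :=
    (Finset.add_sum_erase _ _ (Finset.mem_univ k)).symm
  have h3 : (∑ i, (T3f_J k *ᵥ h) (Sum.inl i) * (T3f_J k *ᵥ h) (Sum.inr i)) =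
      -(h (Sum.inr k) * h (Sum.inl k)) +
        ∑ i ∈ Finset.univ.erase k, h (Sum.inl i) * h (Sum.inr i) := by
    rw [← Finset.add_sum_erase _ _ (Finset.mem_univ k), T3f_inl, T3f_inr, if_pos rfl, if_pos rfl]
    congr 1
    · ring
    · refine Finset.sum_congr rfl fun i hi => ?_
      have hik := (Finset.mem_erase.1 hi).1
      rw [T3f_inl, T3f_inr, if_neg hik, if_neg hik]
  rw [h2, h3]
  push_cast
  ring

/-- T3f -/
theorem heis_pft {g : ℕ} {N : ℕ} (hN : 0 < N) (k : Fin g) (h : (Fin g ⊕ Fin g) → ℤ) :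
    pft N k ∘ₗ Wop N h = Wop N ((fromBlocks (1 - single k k 1) (-(single k k 1)) (single k k 1)
      (1 - single k k 1) : Matrix (Fin g ⊕ Fin g) (Fin g ⊕ Fin g) ℤ) *ᵥ h) ∘ₗ pft N k := by
  have : NeZero (N ^ 2) := ⟨by positivity⟩
  refine LinearMap.ext fun φ => ?_
  funext n
  show pft N k (Wop N h φ) n = Wop N (T3f_J k *ᵥ h) (pft N k φ) n
  rw [T3e_pft, T3f_W, T3e_pft, T3f_inl, if_pos rfl]
  simp only [T3f_W]
  rw [← Equiv.sum_comp (Equiv.subRight ((h (Sum.inl k) : ℤ) : ZMod (N ^ 2)))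
    (fun x => ZMod.stdAddChar (-(∑ i, (h (Sum.inr i) : ZMod (N ^ 2)) * Function.update n k x i)) *
      T3f_A N h * φ (fun i => Function.update n k x i + ((h (Sum.inl i) : ℤ) : ZMod (N ^ 2))) *
      ZMod.stdAddChar (n k * x))]
  simp only [Equiv.subRight_apply]
  conv_rhs => rw [mul_left_comm, Finset.mul_sum]
  congr 1
  refine Finset.sum_congr rfl fun y _ => ?_
  have hfun : (fun i => Function.update n k (y - ((h (Sum.inl k) : ℤ) : ZMod (N ^ 2))) i +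
      ((h (Sum.inl i) : ℤ) : ZMod (N ^ 2))) =
      Function.update (fun i => n i + (((T3f_J k *ᵥ h) (Sum.inl i) : ℤ) : ZMod (N ^ 2))) k y := by
    funext i
    by_cases hi : i = k
    · subst hi
      simp
    · rw [Function.update_of_ne hi, Function.update_of_ne hi, T3f_inl, if_neg hi]
  rw [hfun, T3f_AJ (N := N) k h]
  have hz : -(∑ i, (h (Sum.inr i) : ZMod (N ^ 2)) *
        Function.update n k (y - ((h (Sum.inl k) : ℤ) : ZMod (N ^ 2))) i) +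
      -(((h (Sum.inl k) : ZMod (N ^ 2))) * (h (Sum.inr k) : ZMod (N ^ 2))) +
      n k * (y - ((h (Sum.inl k) : ℤ) : ZMod (N ^ 2))) =
      -(∑ i, (((T3f_J k *ᵥ h) (Sum.inr i) : ℤ) : ZMod (N ^ 2)) * n i) +
      (n k + ((-(h (Sum.inr k)) : ℤ) : ZMod (N ^ 2))) * y := by
    rw [← Finset.add_sum_erase _ _ (Finset.mem_univ k),
      ← Finset.add_sum_erase Finset.univ (fun i => (((T3f_J k *ᵥ h) (Sum.inr i) : ℤ) : ZMod (N ^ 2)) * n i)
        (Finset.mem_univ k)]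
    have he : ∑ i ∈ Finset.univ.erase k, (h (Sum.inr i) : ZMod (N ^ 2)) *
        Function.update n k (y - ((h (Sum.inl k) : ℤ) : ZMod (N ^ 2))) i =
        ∑ i ∈ Finset.univ.erase k, (((T3f_J k *ᵥ h) (Sum.inr i) : ℤ) : ZMod (N ^ 2)) * n i := by
      refine Finset.sum_congr rfl fun i hi => ?_
      have hik := (Finset.mem_erase.1 hi).1
      rw [Function.update_of_ne hik, T3f_inr, if_neg hik]
    rw [he, T3f_inr, if_pos rfl, Function.update_self]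
    push_cast
    ring
  have hexp : (ZMod.stdAddChar (-(∑ i, (h (Sum.inr i) : ZMod (N ^ 2)) *
        Function.update n k (y - ((h (Sum.inl k) : ℤ) : ZMod (N ^ 2))) i)) : ℂ) *
      ZMod.stdAddChar (-(((h (Sum.inl k) : ZMod (N ^ 2))) * (h (Sum.inr k) : ZMod (N ^ 2)))) *
      ZMod.stdAddChar (n k * (y - ((h (Sum.inl k) : ℤ) : ZMod (N ^ 2)))) =
      ZMod.stdAddChar (-(∑ i, (((T3f_J k *ᵥ h) (Sum.inr i) : ℤ) : ZMod (N ^ 2)) * n i)) *
      ZMod.stdAddChar ((n k + ((-(h (Sum.inr k)) : ℤ) : ZMod (N ^ 2))) * y) := by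
    rw [← AddChar.map_add_eq_mul, ← AddChar.map_add_eq_mul, ← AddChar.map_add_eq_mul, hz]
  linear_combination (T3f_A N (T3f_J k *ᵥ h) * φ (Function.update
    (fun i => n i + (((T3f_J k *ᵥ h) (Sum.inl i) : ℤ) : ZMod (N ^ 2))) k y)) * hexp

end Pool.Agent.helper76.BQ
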