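import Pool.Agent.helper54.BQ.B8a0

/-!
# Project bq, module B8a, conditional form of `th2_continuous`
-/

open Matrix Complex

namespace Pool.Agent.helper76.BQ

variable {F : Type} [Field F] [NumberField F]

theorem th2_continuous_of (T1a : B8a_T1a) (T1b : B8a_T1b)
    (B1c : ∀ {D : ℝ} (x : Fin 3 → ℂ) (α : Fin 2) {z : Fin 2 → ℂ}, z ∈ Ball D →
      DifferentiableAt ℂ (fun w => dss D x w α) z ∧ DifferentiableAt ℂ (fun w => qz D x x w) z)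
    (B3 : ∀ {κ d : F} {v0 : F →+* ℝ}, Data κ d v0 → ∀ {k : ℕ} (δ : Fin k → F), (∀ l, δ l ≠ 0) →
      ∃ (g : ℕ) (bas dua : Fin g → Fin k → Fin 3 → F), LB d δ bas dua)
    (B5a : ∀ {κ d : F} {v0 : F →+* ℝ}, Data κ d v0 → ∀ {k g : ℕ} {δ : Fin k → F}
      {bas dua : Fin g → Fin k → Fin 3 → F}, LB d δ bas dua →
      ∀ {S M : (F →+* ℝ) → Matrix (Fin k) (Fin k) ℝ}, MajAll δ v0 S M →
      ∀ {z : Fin 2 → ℂ}, z ∈ Ball (v0 d) → IsSiegel (Zm κ d v0 bas M z))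
    (B5g : ∀ {κ d : F} {v0 : F →+* ℝ}, Data κ d v0 → ∀ {k g : ℕ} (bas : Fin g → Fin k → Fin 3 → F)
      {P : Type} [TopologicalSpace P] (M : P → (F →+* ℝ) → Matrix (Fin k) (Fin k) ℝ),
      (∀ v l l', Continuous (fun p => M p v l l')) →
      ContinuousOn (fun q : P × (Fin 2 → ℂ) => Zm κ d v0 bas (M q.1) q.2) (Set.univ ×ˢ Ball (v0 d)))
    (B6a : ∀ {k g : ℕ} {d : F} {δ : Fin k → F} {bas dua : Fin g → Fin k → Fin 3 → F}, LB d δ bas dua →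
      ∀ {φ : (Fin k → Fin 3 → F) → ℂ}, IsSchw φ →
      ∃ N : ℕ, 0 < N ∧ Even N ∧ ∃ ψ : Sch g N,
        (∀ n : Fin g → ℤ, φ (∑ i, ((n i : F) / (N : F)) • bas i) = ψ (red N n)) ∧
        ∀ x, φ x ≠ 0 → ∃ n : Fin g → ℤ, x = ∑ i, ((n i : F) / (N : F)) • bas i)
    (B6c : ∀ {κ d : F} {v0 : F →+* ℝ} {g : ℕ} {δ : Fin 2 → F} {bas dua : Fin g → Fin 2 → Fin 3 → F},
      LB d δ bas dua → ∀ {φ : (Fin 2 → Fin 3 → F) → ℂ} {N : ℕ}, 0 < N → ∀ {ψ : Sch g N},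
      (∀ n : Fin g → ℤ, φ (∑ i, ((n i : F) / (N : F)) • bas i) = ψ (red N n)) →
      (∀ x, φ x ≠ 0 → ∃ n : Fin g → ℤ, x = ∑ i, ((n i : F) / (N : F)) • bas i) →
      ∀ (M : (F →+* ℝ) → Matrix (Fin 2) (Fin 2) ℝ) (z : Fin 2 → ℂ), IsSiegel (Zm κ d v0 bas M z) →
      th2 κ d v0 M φ z = ∑ i, ∑ j, Th2 N ψ (Zm κ d v0 bas M z) i j *
        (dss (v0 d) (pl v0 (bas i 0)) z 0 * dss (v0 d) (pl v0 (bas j 1)) z 1 -
         dss (v0 d) (pl v0 (bas i 0)) z 1 * dss (v0 d) (pl v0 (bas j 1)) z 0))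
    {κ d : F} {v0 : F →+* ℝ} (hd : Data κ d v0) {δ : Fin 2 → F}
    {P : Type} [TopologicalSpace P] {S M : P → (F →+* ℝ) → Matrix (Fin 2) (Fin 2) ℝ}
    (hM : ∀ p, MajAll δ v0 (S p) (M p)) (hc : ∀ v l l', Continuous (fun p => M p v l l'))
    {φ : (Fin 2 → Fin 3 → F) → ℂ} (hφ : IsSchw φ) :
    ContinuousOn (fun q : P × (Fin 2 → ℂ) => th2 κ d v0 (M q.1) φ q.2) (Set.univ ×ˢ Ball (v0 d)) := by
  intro q0 hq0
  obtain ⟨g, bas, dua, hL⟩ := B3 hd δ (hM q0.1).ne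
  obtain ⟨N, hN, -, ψ, h1, h2⟩ := B6a hL hφ
  have hS : ∀ q ∈ (Set.univ : Set P) ×ˢ Ball (v0 d), IsSiegel (Zm κ d v0 bas (M q.1) q.2) :=
    fun q hq => B5a hd hL (hM q.1) hq.2
  have hZ := B5g hd (v0 := v0) bas M hc
  have hdss : ∀ (x : Fin 3 → ℂ) (α : Fin 2), ContinuousOn (fun q : P × (Fin 2 → ℂ) =>
      dss (v0 d) x q.2 α) ((Set.univ : Set P) ×ˢ Ball (v0 d)) := by
    intro x α
    have h3 : ContinuousOn (fun w => dss (v0 d) x w α) (Ball (v0 d)) :=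
      fun w hw => (B1c x α hw).1.continuousAt.continuousWithinAt
    exact h3.comp continuous_snd.continuousOn fun q hq => hq.2
  have hmain : ContinuousOn (fun q : P × (Fin 2 → ℂ) =>
      ∑ i, ∑ j, Th2 N ψ (Zm κ d v0 bas (M q.1) q.2) i j *
        (dss (v0 d) (pl v0 (bas i 0)) q.2 0 * dss (v0 d) (pl v0 (bas j 1)) q.2 1 -
         dss (v0 d) (pl v0 (bas i 0)) q.2 1 * dss (v0 d) (pl v0 (bas j 1)) q.2 0))
      ((Set.univ : Set P) ×ˢ Ball (v0 d)) := by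
    refine continuousOn_finsetSum _ fun i _ => continuousOn_finsetSum _ fun j _ => ?_
    refine ContinuousOn.mul ?_ (((hdss _ _).mul (hdss _ _)).sub ((hdss _ _).mul (hdss _ _)))
    exact (B8a_Th2_of T1a T1b hN ψ i j).comp hZ fun q hq => hS q hq
  have hcongr : ContinuousOn (fun q : P × (Fin 2 → ℂ) => th2 κ d v0 (M q.1) φ q.2)
      (Set.univ ×ˢ Ball (v0 d)) :=
    hmain.congr fun q hq => B6c hL hN h1 h2 (M q.1) q.2 (hS q hq)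
  exact hcongr q0 hq0

end Pool.Agent.helper76.BQ
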