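import Pool.Agent.helper54.BQ.B8a1
import Pool.Agent.helper76.BQ.T1
import Pool.Agent.helper76.BQ.B1
import Pool.Agent.helper4.BQ.B5a
import Pool.Agent.helper63.BQ.B5g
import Pool.Agent.helper99.BQ.B6a
import Pool.Agent.helper26.BQ.B6bof

/-!
# Project bq, module B8a: only B3 (`lb_exists`) as hypothesis
-/

open Matrix Complex

namespace Pool.Agent.helper76.BQ

variable {F : Type} [Field F] [NumberField F]

theorem th2_continuous_of3
    (B3 : ∀ {κ d : F} {v0 : F →+* ℝ}, Data κ d v0 → ∀ {k : ℕ} (δ : Fin k → F), (∀ l, δ l ≠ 0) →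
      ∃ (g : ℕ) (bas dua : Fin g → Fin k → Fin 3 → F), LB d δ bas dua)
    {κ d : F} {v0 : F →+* ℝ} (hd : Data κ d v0) {δ : Fin 2 → F}
    {P : Type} [TopologicalSpace P] {S M : P → (F →+* ℝ) → Matrix (Fin 2) (Fin 2) ℝ}
    (hM : ∀ p, MajAll δ v0 (S p) (M p)) (hc : ∀ v l l', Continuous (fun p => M p v l l'))
    {φ : (Fin 2 → Fin 3 → F) → ℂ} (hφ : IsSchw φ) :
    ContinuousOn (fun q : P × (Fin 2 → ℂ) => th2 κ d v0 (M q.1) φ q.2) (Set.univ ×ˢ Ball (v0 d)) := by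
  refine th2_continuous_of (fun hZ => siegel_coercive hZ)
    (fun hN _ hZ φ ξ k => siegel_summable hN hZ φ ξ k)
    (fun x α _ hz => dss_differentiableAt x α hz) B3 (fun hd _ _ _ _ _ hL _ _ hM _ hz => Zm_siegel hd hL hM hz)
    (fun hd _ _ bas _ _ M hc => Zm_continuous hd bas M hc) (fun hL _ hφ => schw_level hL hφ)
    ?_ hd hM hc hφ
  intro κ d v0 g δ bas dua hL φ N hN ψ h1 h2 M z hS
  exact th2_eq_of (fun g N hN Z hZ φ ξ k => siegel_summable hN hZ φ ξ k) hL hN h1 h2 M z hS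

end Pool.Agent.helper76.BQ
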